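import Mathlib
import Pool.Agent.Q3.AltTowerH

/-! A finitely generated group with a finite subgroup for which the monoid of restricted finite
actions is not finitely generated. -/

namespace Pool.Agent.Results.MP_af3a77_al.ActionsNotFG

open Equiv

/-- The monoid `i^*(Λ^+(G))` of setting (A) is finitely generated: there are finitely many finite
`G`-actions `ψ i` such that the restriction to `H` of every finite `G`-action `φ` is isomorphic,
as an action of `H`, to a disjoint union of copies of the restrictions of the `ψ i`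
(with multiplicities `r i`). -/
def ActionImageFG {G : Type} [Group G] (H : Subgroup G) : Prop :=
  ∃ (k : ℕ) (m : Fin k → ℕ) (ψ : ∀ i, G →* Perm (Fin (m i))),
    ∀ (n : ℕ) (φ : G →* Perm (Fin n)),
      ∃ (r : Fin k → ℕ) (e : Fin n ≃ (i : Fin k) × (Fin (r i) × Fin (m i))),
        ∀ h ∈ H, ∀ x, e (φ h x) = ⟨(e x).1, (e x).2.1, ψ (e x).1 h (e x).2.2⟩

open Q3.AltTower

/-- There are a finitely generated group `G` and a finite subgroup `H` such that the monoid
`i^*(Λ^+(G))` of restrictions to `H` of finite `G`-actions is not finitely generated. -/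
theorem result : ∃ (G : Type) (_ : Group G) (H : Subgroup G),
    Group.FG G ∧ Finite H ∧ ¬ ActionImageFG H := by
  refine ⟨G, inferInstance, H, G_fg, H_finite, ?_⟩
  rintro ⟨k, m, ψ, hψ⟩
  have hle : ∀ i, moved (ψ i aG) ≤ (∑ i, m i) * moved (ψ i bG) := by
    intro i
    by_cases h0 : moved (ψ i bG) = 0
    · have h1 : ψ i bG = 1 := moved_eq_zero h0
      have h2 : ψ i aG = 1 := kill (compactish_perm (m i)) (ψ i) h1
      rw [h2, moved_one]
      exact Nat.zero_le _
    · calc moved (ψ i aG) ≤ m i := by simpa using moved_le (ψ i aG)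
        _ ≤ ∑ i, m i := Finset.single_le_sum (f := m) (fun _ _ => Nat.zero_le _)
            (Finset.mem_univ i)
        _ ≤ (∑ i, m i) * moved (ψ i bG) := Nat.le_mul_of_pos_right _ (Nat.pos_of_ne_zero h0)
  set N := ∑ i, m i with hN
  obtain ⟨r, e, he⟩ := hψ _ (coord N)
  have ha : moved (coord N aG) = ∑ i, r i * moved (ψ i aG) :=
    moved_sum _ (fun i => ψ i aG) e (he aG (Subgroup.subset_closure (by simp)))
  have hb : moved (coord N bG) = ∑ i, r i * moved (ψ i bG) :=
    moved_sum _ (fun i => ψ i bG) e (he bG (Subgroup.subset_closure (by simp)))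
  have h1 : moved (coord N aG) ≤ N * moved (coord N bG) := by
    rw [ha, hb, Finset.mul_sum]
    apply Finset.sum_le_sum
    intro i _
    calc r i * moved (ψ i aG) ≤ r i * (N * moved (ψ i bG)) := Nat.mul_le_mul_left _ (hle i)
      _ = N * (r i * moved (ψ i bG)) := by ring
  rw [moved_coord, moved_coord] at h1
  have h2 : moved (a N) ≤ N * moved (b N) := h1
  rw [moved_a, moved_b] at h2
  have h3 : moved (u 0 N * u 2 N) ≠ 0 := fun h => p0_ne N (moved_eq_zero h)
  have h4 := Nat.pos_of_ne_zero h3
  nlinarith

end Pool.Agent.Results.MP_af3a77_al.ActionsNotFG
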