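import Mathlib
import Pool.Agent.Q3.AltTowerH

/-! A finitely generated group with a finite subgroup for which the monoid of restricted finite
dimensional unitary representations is not finitely generated. -/

namespace Pool.Agent.Results.MP_af3a77_al.RepsNotFG

open Equiv Matrix

/-- The monoid `i^*(Λ^+(G))` of setting (R) is finitely generated: there are finitely many unitary
representations `ψ i : G → U(m i)` such that the restriction to `H` of every unitary
representation `φ : G → U(n)` is isomorphic, as a representation of `H`, to a direct sum of copies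
of the restrictions of the `ψ i` (with multiplicities `r i`). -/
def RepImageFG {G : Type} [Group G] (H : Subgroup G) : Prop :=
  ∃ (k : ℕ) (m : Fin k → ℕ) (ψ : ∀ i, G →* Matrix.unitaryGroup (Fin (m i)) ℂ),
    ∀ (n : ℕ) (φ : G →* Matrix.unitaryGroup (Fin n) ℂ),
      ∃ (r : Fin k → ℕ) (e : (Fin n → ℂ) ≃ₗ[ℂ] ((i : Fin k) × (Fin (r i) × Fin (m i)) → ℂ)),
        ∀ h ∈ H, ∀ (v : Fin n → ℂ) (i : Fin k) (c : Fin (r i)),
          (fun y => e ((φ h : Matrix (Fin n) (Fin n) ℂ) *ᵥ v) ⟨i, c, y⟩)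
            = (ψ i h : Matrix (Fin (m i)) (Fin (m i)) ℂ) *ᵥ (fun y => e v ⟨i, c, y⟩)

open Q3.AltTower

section compact

open scoped Matrix.Norms.L2Operator

lemma compactish_unitary (d : ℕ) : Compactish (Matrix.unitaryGroup (Fin d) ℂ) := by
  intro γ
  have hb : ∀ g : Matrix.unitaryGroup (Fin d) ℂ,
      ‖(g : Matrix (Fin d) (Fin d) ℂ)‖ ≤ ‖(1 : Matrix (Fin d) (Fin d) ℂ)‖ := by
    intro g
    have := CStarRing.norm_mul_coe_unitary (1 : Matrix (Fin d) (Fin d) ℂ) g
    rw [one_mul] at this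
    exact this.le
  have : ProperSpace (Matrix (Fin d) (Fin d) ℂ) := FiniteDimensional.proper ℂ _
  obtain ⟨L, _, f, hf, hlim⟩ := tendsto_subseq_of_bounded
    (s := Metric.closedBall (0 : Matrix (Fin d) (Fin d) ℂ) ‖(1 : Matrix (Fin d) (Fin d) ℂ)‖)
    Metric.isBounded_closedBall (x := fun i => (γ i : Matrix (Fin d) (Fin d) ℂ))
    (fun i => by rw [mem_closedBall_zero_iff]; exact hb _)
  obtain ⟨N, hN⟩ := Metric.cauchySeq_iff'.mp hlim.cauchySeq 2 (by norm_num)
  have h1 := hN (N + 1) (Nat.le_succ N)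
  refine ⟨f N, f (N + 1), hf (Nat.lt_succ_self N), fun hsq => ?_⟩
  set w : Matrix.unitaryGroup (Fin d) ℂ := γ (f N) * (γ (f (N + 1)))⁻¹ with hw
  have h2 : ‖(w : Matrix (Fin d) (Fin d) ℂ) - 1‖ < 2 := by
    have e : (w : Matrix (Fin d) (Fin d) ℂ) - 1 =
        ((γ (f N) : Matrix (Fin d) (Fin d) ℂ) - (γ (f (N + 1)) : Matrix (Fin d) (Fin d) ℂ)) *
          (((γ (f (N + 1)))⁻¹ : Matrix.unitaryGroup (Fin d) ℂ) : Matrix (Fin d) (Fin d) ℂ) := by
      rw [sub_mul, ← Submonoid.coe_mul, ← Submonoid.coe_mul, mul_inv_cancel, hw]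
      rfl
    rw [e, CStarRing.norm_mul_coe_unitary, ← dist_eq_norm, dist_comm]
    exact h1
  have h3 : ((w : Matrix (Fin d) (Fin d) ℂ) - 1) * ((w : Matrix (Fin d) (Fin d) ℂ) - 1)
      = (-2 : ℂ) • ((w : Matrix (Fin d) (Fin d) ℂ) - 1) := by
    have h4 : (w : Matrix (Fin d) (Fin d) ℂ) * (w : Matrix (Fin d) (Fin d) ℂ) = 1 := by
      rw [← Submonoid.coe_mul, ← sq, hsq]
      rfl
    rw [sub_mul, mul_sub, h4, one_mul, mul_one]
    module
  have h5 : 2 * ‖(w : Matrix (Fin d) (Fin d) ℂ) - 1‖ ≤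
      ‖(w : Matrix (Fin d) (Fin d) ℂ) - 1‖ * ‖(w : Matrix (Fin d) (Fin d) ℂ) - 1‖ := by
    have := norm_mul_le ((w : Matrix (Fin d) (Fin d) ℂ) - 1) ((w : Matrix (Fin d) (Fin d) ℂ) - 1)
    rw [h3, norm_smul] at this
    simpa using this
  have h6 : ‖(w : Matrix (Fin d) (Fin d) ℂ) - 1‖ = 0 := by
    by_contra h0
    have hpos : 0 < ‖(w : Matrix (Fin d) (Fin d) ℂ) - 1‖ :=
      lt_of_le_of_ne (norm_nonneg _) (Ne.symm h0)
    nlinarith
  apply Subtype.ext
  have := norm_eq_zero.mp h6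
  exact sub_eq_zero.mp this

end compact

/-- The defect `n - Re tr U` of a unitary matrix. -/
noncomputable def defect {d : ℕ} (U : Matrix.unitaryGroup (Fin d) ℂ) : ℝ :=
  d - (Matrix.trace (U : Matrix (Fin d) (Fin d) ℂ)).re

lemma defect_one {d : ℕ} : defect (1 : Matrix.unitaryGroup (Fin d) ℂ) = 0 := by
  simp [defect]

/-- `∑ |(U - 1)_{ij}|² = 2 * defect U`. -/
lemma sum_sq_eq {d : ℕ} (U : Matrix.unitaryGroup (Fin d) ℂ) :
    ∑ i, ∑ j, Complex.normSq (((U : Matrix (Fin d) (Fin d) ℂ) - 1) i j) = 2 * defect U := by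
  have h1 : ∑ i, ∑ j, ((Complex.normSq (((U : Matrix (Fin d) (Fin d) ℂ) - 1) i j) : ℝ) : ℂ) =
      Matrix.trace (((U : Matrix (Fin d) (Fin d) ℂ) - 1) *
        star ((U : Matrix (Fin d) (Fin d) ℂ) - 1)) := by
    rw [Matrix.trace]
    apply Finset.sum_congr rfl
    intro i _
    rw [Matrix.diag_apply, Matrix.mul_apply]
    apply Finset.sum_congr rfl
    intro j _
    rw [Matrix.star_apply, Complex.normSq_eq_conj_mul_self, mul_comm]
    rfl
  have hU : (U : Matrix (Fin d) (Fin d) ℂ) * star (U : Matrix (Fin d) (Fin d) ℂ) = 1 :=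
    Matrix.mem_unitaryGroup_iff.mp U.2
  have h2 : ((U : Matrix (Fin d) (Fin d) ℂ) - 1) * star ((U : Matrix (Fin d) (Fin d) ℂ) - 1)
      = (2 : ℂ) • (1 : Matrix (Fin d) (Fin d) ℂ) - (U : Matrix (Fin d) (Fin d) ℂ)
        - star (U : Matrix (Fin d) (Fin d) ℂ) := by
    rw [star_sub, star_one, sub_mul, mul_sub, hU, one_mul, mul_one]
    module
  rw [h2] at h1
  have h3 := congrArg Complex.re h1
  simp only [Complex.re_sum, Complex.ofReal_re] at h3
  rw [h3, Matrix.trace_sub, Matrix.trace_sub, Matrix.trace_smul, Matrix.trace_one]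
  have h4 : (Matrix.trace (star (U : Matrix (Fin d) (Fin d) ℂ))).re
      = (Matrix.trace (U : Matrix (Fin d) (Fin d) ℂ)).re := by
    rw [Matrix.star_eq_conjTranspose, Matrix.trace_conjTranspose]
    simp
  rw [Complex.sub_re, Complex.sub_re, h4, defect]
  simp
  ring

lemma defect_nonneg {d : ℕ} (U : Matrix.unitaryGroup (Fin d) ℂ) : 0 ≤ defect U := by
  have h := sum_sq_eq U
  have : 0 ≤ ∑ i, ∑ j, Complex.normSq (((U : Matrix (Fin d) (Fin d) ℂ) - 1) i j) :=
    Finset.sum_nonneg (fun i _ => Finset.sum_nonneg (fun j _ => Complex.normSq_nonneg _))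
  linarith

lemma defect_eq_zero {d : ℕ} {U : Matrix.unitaryGroup (Fin d) ℂ} (h : defect U = 0) : U = 1 := by
  have h1 := sum_sq_eq U
  rw [h, mul_zero] at h1
  have h2 : ∀ i j, ((U : Matrix (Fin d) (Fin d) ℂ) - 1) i j = 0 := by
    intro i j
    have h3 := (Finset.sum_eq_zero_iff_of_nonneg (fun i _ => Finset.sum_nonneg
      (fun j _ => Complex.normSq_nonneg _))).mp h1 i (Finset.mem_univ i)
    have h4 := (Finset.sum_eq_zero_iff_of_nonneg
      (fun j _ => Complex.normSq_nonneg _)).mp h3 j (Finset.mem_univ j)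
    exact Complex.normSq_eq_zero.mp h4
  apply Subtype.ext
  apply sub_eq_zero.mp
  ext i j
  exact h2 i j

/-- A permutation as a unitary matrix. -/
noncomputable def permUnitary (d : ℕ) : Perm (Fin d) →* Matrix.unitaryGroup (Fin d) ℂ where
  toFun σ := ⟨Matrix.permMatrixHom σ, by
    rw [Matrix.mem_unitaryGroup_iff, Matrix.permMatrixHom_apply, Matrix.star_eq_conjTranspose,
      Matrix.conjTranspose_permMatrix, inv_inv, ← Matrix.permMatrix_mul]
    simp⟩
  map_one' := by
    apply Subtype.ext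
    simp
  map_mul' σ τ := by
    apply Subtype.ext
    simp

lemma defect_perm {d : ℕ} (σ : Perm (Fin d)) : defect (permUnitary d σ) = moved σ := by
  have h : Matrix.trace ((permUnitary d σ : Matrix (Fin d) (Fin d) ℂ))
      = ∑ x : Fin d, if σ x = x then (1 : ℂ) else 0 := by
    rw [Matrix.trace]
    apply Finset.sum_congr rfl
    intro x _
    rw [Matrix.diag_apply]
    change (Matrix.permMatrixHom σ : Matrix (Fin d) (Fin d) ℂ) x x = _
    rw [Matrix.permMatrixHom_apply, Equiv.Perm.permMatrix, PEquiv.toMatrix_apply]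
    have : (σ.symm x = x) ↔ σ x = x := by
      rw [Equiv.symm_apply_eq, eq_comm]
    simp [this]
  rw [defect, h]
  have h2 : (∑ x : Fin d, if σ x = x then (1 : ℂ) else 0).re
      = ∑ x : Fin d, if σ x = x then (1 : ℝ) else 0 := by
    rw [Complex.re_sum]
    apply Finset.sum_congr rfl
    intro x _
    split_ifs <;> simp
  rw [h2, moved]
  push_cast
  have h3 : (d : ℝ) = ∑ x : Fin d, (1 : ℝ) := by simp
  rw [h3, ← Finset.sum_sub_distrib]
  apply Finset.sum_congr rfl
  intro x _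
  split_ifs <;> simp

lemma re_nat_mul (r : ℕ) (z : ℂ) : ((r : ℂ) * z).re = r * z.re := by simp

/-- Traces add up over the direct sum. -/
lemma trace_sum {k n : ℕ} {m r : Fin k → ℕ} (A : Matrix (Fin n) (Fin n) ℂ)
    (B : ∀ i, Matrix (Fin (m i)) (Fin (m i)) ℂ)
    (e : (Fin n → ℂ) ≃ₗ[ℂ] ((i : Fin k) × (Fin (r i) × Fin (m i)) → ℂ))
    (he : ∀ (v : Fin n → ℂ) (i : Fin k) (c : Fin (r i)),
      (fun y => e (A *ᵥ v) ⟨i, c, y⟩) = B i *ᵥ (fun y => e v ⟨i, c, y⟩)) :
    Matrix.trace A = ∑ i, (r i : ℂ) * Matrix.trace (B i) := by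
  have h1 : LinearMap.trace ℂ _ (e.conj (Matrix.toLin' A)) = Matrix.trace A := by
    rw [LinearMap.trace_conj', Matrix.trace_toLin'_eq]
  rw [← h1, LinearMap.trace_eq_matrix_trace ℂ (Pi.basisFun ℂ _), Matrix.trace, Fintype.sum_sigma]
  apply Finset.sum_congr rfl
  intro i _
  rw [Fintype.sum_prod_type]
  have h2 : ∀ (c : Fin (r i)) (y : Fin (m i)),
      (LinearMap.toMatrix (Pi.basisFun ℂ _) (Pi.basisFun ℂ _) (e.conj (Matrix.toLin' A))).diag
        ⟨i, c, y⟩ = B i y y := by
    intro c y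
    rw [Matrix.diag_apply, LinearMap.toMatrix_apply, Pi.basisFun_repr, Pi.basisFun_apply,
      LinearEquiv.conj_apply_apply, Matrix.toLin'_apply]
    have h3 := congrFun (he (e.symm (Pi.single ⟨i, c, y⟩ 1)) i c) y
    refine h3.trans ?_
    rw [Matrix.mulVec, dotProduct, Finset.sum_eq_single y]
    · rw [LinearEquiv.apply_symm_apply, Pi.single_eq_same, mul_one]
    · intro y' _ hy'
      rw [LinearEquiv.apply_symm_apply, Pi.single_eq_of_ne, mul_zero]
      intro h
      apply hy'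
      simpa using h
    · simp
  calc _ = ∑ _c : Fin (r i), Matrix.trace (B i) := by
        apply Finset.sum_congr rfl
        intro c _
        rw [Matrix.trace]
        apply Finset.sum_congr rfl
        intro y _
        rw [Matrix.diag_apply]
        exact h2 c y
    _ = _ := by rw [Finset.sum_const, Finset.card_univ, Fintype.card_fin, nsmul_eq_mul]

/-- There are a finitely generated group `G` and a finite subgroup `H` such that the monoid
`i^*(Λ^+(G))` of restrictions to `H` of finite dimensional unitary representations of `G` is not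
finitely generated. -/
theorem result : ∃ (G : Type) (_ : Group G) (H : Subgroup G),
    Group.FG G ∧ Finite H ∧ ¬ RepImageFG H := by
  refine ⟨G, inferInstance, H, G_fg, H_finite, ?_⟩
  rintro ⟨k, m, ψ, hψ⟩
  -- a common bound for the ratios
  obtain ⟨C, hC⟩ : ∃ C : ℕ, ∀ i, defect (ψ i aG) ≤ C * defect (ψ i bG) := by
    have h1 : ∀ i, ∃ C : ℕ, defect (ψ i aG) ≤ C * defect (ψ i bG) := by
      intro i
      by_cases h0 : defect (ψ i bG) = 0
      · have h1 : ψ i bG = 1 := defect_eq_zero h0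
        have h2 : ψ i aG = 1 := kill (compactish_unitary (m i)) (ψ i) h1
        exact ⟨0, by rw [h2, defect_one]; simp⟩
      · have hpos : 0 < defect (ψ i bG) := lt_of_le_of_ne (defect_nonneg _) (Ne.symm h0)
        obtain ⟨C, hC⟩ := exists_nat_ge (defect (ψ i aG) / defect (ψ i bG))
        exact ⟨C, (div_le_iff₀ hpos).mp hC⟩
    choose C hC using h1
    refine ⟨∑ i, C i, fun i => (hC i).trans ?_⟩
    apply mul_le_mul_of_nonneg_right _ (defect_nonneg _)
    exact_mod_cast Finset.single_le_sum (f := C) (fun _ _ => Nat.zero_le _) (Finset.mem_univ i)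
  obtain ⟨r, e, he⟩ := hψ _ ((permUnitary _).comp (coord C))
  -- the defects add up
  have hsum : ∀ h ∈ H, defect (permUnitary _ (coord C h)) = ∑ i, (r i : ℝ) * defect (ψ i h) := by
    intro h hh
    have t1 := trace_sum _ (fun i => (ψ i h : Matrix (Fin (m i)) (Fin (m i)) ℂ)) e (he h hh)
    have t2 := trace_sum _ (fun i => (ψ i 1 : Matrix (Fin (m i)) (Fin (m i)) ℂ)) e
      (he 1 (one_mem H))
    have t3 := congrArg Complex.re t1
    have t4 := congrArg Complex.re t2
    simp only [MonoidHom.comp_apply, map_one, OneMemClass.coe_one, Matrix.trace_one,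
      Fintype.card_fin, Complex.re_sum, Complex.natCast_re, re_nat_mul] at t3 t4
    simp only [defect, mul_sub, Finset.sum_sub_distrib]
    rw [t3, t4]
  have ha := hsum aG (Subgroup.subset_closure (by simp))
  have hb := hsum bG (Subgroup.subset_closure (by simp))
  rw [defect_perm, moved_coord] at ha hb
  have h1 : (moved ((aG : PX) C) : ℝ) ≤ C * (moved ((bG : PX) C) : ℝ) := by
    rw [ha, hb, Finset.mul_sum]
    apply Finset.sum_le_sum
    intro i _
    calc (r i : ℝ) * defect (ψ i aG) ≤ r i * (C * defect (ψ i bG)) :=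
          mul_le_mul_of_nonneg_left (hC i) (Nat.cast_nonneg _)
      _ = C * (r i * defect (ψ i bG)) := by ring
  have h2 : (moved (a C) : ℝ) ≤ C * (moved (b C) : ℝ) := h1
  rw [moved_a, moved_b] at h2
  have h3 : moved (u 0 C * u 2 C) ≠ 0 := fun h => p0_ne C (moved_eq_zero h)
  have h4 : (0 : ℝ) < moved (u 0 C * u 2 C) := by exact_mod_cast Nat.pos_of_ne_zero h3
  push_cast at h2
  nlinarith

end Pool.Agent.Results.MP_af3a77_al.RepsNotFG
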